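import Pool.Agent.helper97.AS.Spec

set_option autoImplicit false

namespace Pool.Agent.helper97.AS

open Pool.Agent.helper20.LB (Step F IsSq Same Bd co)

theorem LVL_per {f : ℤ → ℤ} {p τ : ℤ} (h : ∀ x, f (x + p) = f x + τ) (z : ℤ) (k : ℕ) :
    f (z + k * p) = f z + k * τ := by
  induction k with
  | zero => simp
  | succ k ih =>
    have e : z + ((k + 1 : ℕ) : ℤ) * p = (z + k * p) + p := by push_cast; ring
    rw [e, h, ih]
    push_cast
    ring

theorem LVL (hGAL : GAL_stmt) (hUPX : UPX_stmt) : LVL_stmt := by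
  intro f p τ x M t hPer hM ht hT
  have hPer' := hPer
  obtain ⟨hS, hp, hper⟩ := hPer
  have hmono : Monotone f := monotone_int_of_le_succ (fun n => (hS n).1)
  unfold TT at hT
  have hτ : 1 ≤ τ := by
    by_contra hcon
    have h1 : τ ≤ 0 := by omega
    have h2 := LVL_per hper (x - 1) (M + 2).toNat
    have h3 : (((M + 2).toNat : ℕ) : ℤ) = M + 2 := Int.toNat_of_nonneg (by omega)
    rw [h3] at h2
    have h4 : f (x + M + 1) ≤ f (x - 1 + (M + 2) * p) := by
      apply hmono
      nlinarith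
    have h5 : (M + 2) * τ ≤ 0 := mul_nonpos_of_nonneg_of_nonpos (by omega) h1
    omega
  obtain ⟨β, hβ, hβp⟩ := hGAL f p τ hPer' hτ
  have hfβ : ∀ i, f (β i) = i := by
    intro i
    have h1 : i ≤ f (β i) := (hβ i (β i)).1 le_rfl
    have h2 : ¬ i ≤ f (β i - 1) := by
      intro h
      have := (hβ i (β i - 1)).2 h
      omega
    have h3 := (hS (β i - 1)).2
    rw [sub_add_cancel] at h3
    omega
  have hmonoβ : ∀ i j, i ≤ j → β i ≤ β j := by
    intro i j hij
    rw [hβ, hfβ]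
    exact hij
  have hlt : ∀ i, β i + 1 ≤ β (i + 1) := by
    intro i
    by_contra hcon
    have h1 : β (i + 1) ≤ β i := by omega
    rw [hβ, hfβ] at h1
    omega
  have hf : ∀ i z, β i ≤ z → z + 1 ≤ β (i + 1) → f z = i := by
    intro i z h1 h2
    have h3 := (hβ i z).1 h1
    have h4 : ¬ i + 1 ≤ f z := by
      intro h
      have := (hβ (i + 1) z).2 h
      omega
    omega
  obtain ⟨i, hi0, hi1, hd1, hd2⟩ := hUPX (fun i => β (i + t) - β i) τ t hτ ht (by
    intro i
    have e1 : i + τ + t = (i + t) + τ := by ring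
    beta_reduce
    rw [e1, hβp, hβp]
    ring) (f (x - 1) + 1)
  beta_reduce at hd1 hd2
  have ea : i + 1 + t = (i + t) + 1 := by ring
  have ec : i + 1 + t + t = (i + t + t) + 1 := by ring
  rw [ec, ea] at hd2
  have ha := hlt i
  have hb := hlt (i + t)
  have hc := hlt (i + t + t)
  -- the bounds
  have hx : x ≤ β i := by
    by_contra hcon
    have h1 : β i ≤ x - 1 := by omega
    rw [hβ] at h1
    omega
  have hend : β (i + t + t + 1) ≤ x + M + 1 + p := by
    have h1 : β (i + t + t + 1) ≤ β (f (x - 1) + 1 + t + t + τ) := hmonoβ _ _ (by omega)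
    have h2 : β (f (x - 1) + 1 + t + t) ≤ x + M + 1 := by
      rw [hβ]
      omega
    rw [hβp] at h1
    omega
  -- the square
  obtain ⟨μ, hμ⟩ : ∃ μ, μ = β (i + t + 1) - 1 := ⟨_, rfl⟩
  obtain ⟨σ, hσ⟩ : ∃ σ, σ = max (β i) (2 * μ - β (i + t + t + 1) + 1) := ⟨_, rfl⟩
  have hσ1 : β i ≤ σ := by rw [hσ]; exact le_max_left _ _
  have hσ2 : 2 * μ - β (i + t + t + 1) + 1 ≤ σ := by rw [hσ]; exact le_max_right _ _
  have hσ3 : σ + 1 ≤ β (i + 1) := by
    have h1 : σ ≤ β (i + 1) - 1 := by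
      rw [hσ]
      exact max_le (by omega) (by omega)
    omega
  have hσ4 : σ ≤ 2 * μ - β (i + t + t) := by
    rw [hσ]
    exact max_le (by omega) (by omega)
  have f1 : f σ = i := hf i σ hσ1 hσ3
  have f2 : f μ = i + t := hf (i + t) μ (by omega) (by omega)
  have f3 : f (2 * μ - σ) = i + t + t := hf (i + t + t) _ (by omega) (by omega)
  have f4 : f (μ + 1) = i + t + 1 := by
    have e : μ + 1 = β (i + t + 1) := by omega
    rw [e, hfβ]
  have hlt' : σ < μ := by
    by_contra hcon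
    have h1 : f μ ≤ f σ := hmono (by omega)
    omega
  have e1 : μ + (μ - σ) = 2 * μ - σ := by ring
  have e2 : μ - (μ - σ) = σ := by ring
  refine ⟨(μ, μ - σ), ⟨?_, ?_, ?_, ?_⟩, ?_, ?_⟩
  · show 1 ≤ μ - σ
    omega
  · show x ≤ μ - (μ - σ)
    omega
  · show μ + (μ - σ) ≤ x + p + M
    omega
  · show F f μ (μ - σ) = 0
    unfold F
    rw [e1, e2, f1, f2, f3]
    ring
  · show f (μ + 1) = f μ + 1
    rw [f4, f2]
  · show f (μ + (μ - σ)) - f μ = t
    rw [e1, f3, f2]
    ring

end Pool.Agent.helper97.AS
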